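import Pool.Agent.Helper26.TM.XH

/-!
MP_c75db0, star frame: the models `z = <vd, v>` and `H` of a box with small radii. Instead of the
dot product and of the matrix product `(c' c) / 2`: `z = (q - conj q) / 2`, `q = vd_0 conj v_0`, and
`H = (vd v^* - v vd^* - z v v^*) / 2`.
-/

set_option autoImplicit false
noncomputable section
namespace Pool.Agent.Helper25.FHN

open Pool.Agent.Helper90.KMT (PT)
open Pool.Agent.Helper90.KMO
open Pool.Agent.Helper86.CT (Alg Mo er mk cst addM subM mulM conjM)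
open Pool.Agent.Helper17.K9 (V9)
open Pool.Agent.Helper62.TVM (hfM V3m addV subV negV smV hfV mulV oV)
open Pool.Agent.Helper26.XM (oneM cMm cdM oJ rfJ_oJ rfd_oJ oJ_mul)
open Pool.Agent.Helper26.XH (FH hH)
open Pool.Agent.Helper91.TMK Pool.Agent.Helper91.TMK.XH Pool.Agent.Helper91.TMK.XM
open Pool.Agent.Helper6.MONO.W2 (J1 brJ rfJ rfd rfJ_mulVec)

/-! ### the kernel side -/

/-- `z` from `q = vd_0 conj v_0` -/
def zN {α : Type} (A : Alg α) (q : Mo α) : Mo α := hfM A (subM A q (conjM A q))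
def fn3 {α : Type} (A : Alg α) (v vd : V3m α) (z : Mo α) (c o : V9 α) : FH α :=
  ⟨v, vd, z, c, hfV A (subV A (subV A (oV A vd v) (oV A v vd)) (smV A z o))⟩
/-- once per box -/
def fhN {α : Type} (A : Alg α) (v vd : V3m α) : FH α :=
  fn3 A v vd (zN A (mulM A vd.a (conjM A v.a))) (cMm A v) (oV A v v)

/-! ### the real side -/

theorem brJ_star' (u v : Fin 3 → ℂ) : star (brJ 1 u v) = brJ 1 v u := by
  simp [brJ]
  ring

/-- `H` without cancellation -/
theorem hH_eq {v vd : Fin 3 → ℂ} (two : brJ 1 v v = 2) (re0 : (brJ 1 vd v).re = 0) :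
    hH v vd = (1 / 2 : ℂ) • (oJ vd v - oJ v vd - brJ 1 vd v • oJ v v) := by
  have h1 : brJ 1 v vd = - brJ 1 vd v := by
    rw [← brJ_star' vd v]
    apply Complex.ext
    · show (brJ 1 vd v).re = -(brJ 1 vd v).re
      rw [re0, neg_zero]
    · show -(brJ 1 vd v).im = (-(brJ 1 vd v)).im
      rw [Complex.neg_im]
  have a1 : v 0 * star (v 0) + v 1 * star (v 1) - v 2 * star (v 2) = 2 := by
    have := two
    unfold brJ at this
    rw [← this]
    push_cast
    ring
  have a2 : v 0 * star (vd 0) + v 1 * star (vd 1) - v 2 * star (vd 2) = -brJ 1 vd v := by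
    rw [← h1]
    unfold brJ
    push_cast
    ring
  unfold hH
  rw [rfJ_oJ, rfd_oJ]
  congr 1
  ext i j
  have k1 : ∀ i j, (oJ vd v * oJ v v) i j = 2 * oJ vd v i j := by
    intro i j
    rw [Matrix.mul_apply, Fin.sum_univ_three]
    simp only [oJ, Matrix.of_apply, Matrix.cons_val_zero, Matrix.cons_val_one, Matrix.cons_val,
      one_mul]
    linear_combination (vd i * ![star (v 0), star (v 1), -star (v 2)] j) * a1
  have k2 : ∀ i j, (oJ v vd * oJ v v) i j = -brJ 1 vd v * oJ v v i j := by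
    intro i j
    rw [Matrix.mul_apply, Fin.sum_univ_three]
    simp only [oJ, Matrix.of_apply, Matrix.cons_val_zero, Matrix.cons_val_one, Matrix.cons_val,
      one_mul]
    linear_combination (v i * ![star (v 0), star (v 1), -star (v 2)] j) * a2
  rw [neg_mul, add_mul, mul_add, mul_add, mul_neg, mul_neg, mul_smul_comm, mul_smul_comm, mul_one,
    mul_one, one_smul, one_smul]
  simp only [Matrix.neg_apply, Matrix.add_apply, Matrix.sub_apply, Matrix.smul_apply, k1, k2,
    smul_eq_mul]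
  ring

theorem z_eq {v vd : Fin 3 → ℂ} (re0 : (brJ 1 vd v).re = 0) (v1 : star (v 1) = v 1)
    (v2 : star (v 2) = v 2) (w1 : star (vd 1) = vd 1) (w2 : star (vd 2) = vd 2) :
    (vd 0 * star (v 0) - star (vd 0 * star (v 0))) / 2 = brJ 1 vd v := by
  have h1 : brJ 1 vd v = - star (brJ 1 vd v) := by
    apply Complex.ext
    · show (brJ 1 vd v).re = -(brJ 1 vd v).re
      rw [re0, neg_zero]
    · show (brJ 1 vd v).im = - -(brJ 1 vd v).im
      rw [neg_neg]
  have h2 : brJ 1 vd v = (brJ 1 vd v - star (brJ 1 vd v)) / 2 := by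
    linear_combination (1 / 2 : ℂ) * h1
  rw [h2]
  unfold brJ
  simp only [star_sub, star_add, star_mul', star_star, v1, v2, w1, w2, Complex.ofReal_one, star_one,
    one_mul]
  ring

section

variable {α : Type} {D : ℕ} {lf : Mch α} {A : Alg α} {t : ℕ → ℝ}
variable {v vd : Fin 3 → ℂ} {Vm Vd : V3m α}

/-- **MODELS OF THE BOX** -/
theorem HOK_fhN (hA : AOK D lf A) (hP : PT D t) (hv : TW D lf t v Vm) (hd : TW D lf t vd Vd)
    (two : brJ 1 v v = 2) (re0 : (brJ 1 vd v).re = 0) (v1 : star (v 1) = v 1)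
    (v2 : star (v 2) = v 2) (w1 : star (vd 1) = vd 1) (w2 : star (vd 2) = vd 2) :
    HOK D lf t v vd (fhN A Vm Vd) := by
  have hq := hd.a.mul hA hP (hv.a.conj hA)
  have hz : TOK D lf t (brJ 1 vd v) (zN A (mulM A Vd.a (conjM A Vm.a))) := by
    refine tc (TOK_hf hA hP (hq.sub hA (hq.conj hA))) ?_
    rw [← z_eq re0 v1 v2 w1 w2]
    ring
  refine ⟨hv, hd, hz, TV_c hA hP hv, ?_⟩
  exact ((((hd.o hA hP hv).sub hA (hv.o hA hP hd)).sub hA (TV.smul hA hP hz
    (hv.o hA hP hv))).half hA hP).congr (hH_eq two re0).symm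

end

end Pool.Agent.Helper25.FHN
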